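import Mathlib

set_option autoImplicit false

namespace Pool.Agent.Results.MP_846ee0_co.NoPairs

open Filter

noncomputable def E1 (p q : Ultrafilter ℕ+) : Ultrafilter ℕ+ :=
  p.bind fun n => q.map fun m => n ^ (m : ℕ)

noncomputable def E2 (p q : Ultrafilter ℕ+) : Ultrafilter ℕ+ :=
  p.bind fun n => q.map fun m => m ^ (n : ℕ)

def b : ℕ → ℕ
  | 0 => 2
  | 1 => 3
  | k + 2 => 2 ^ b k

lemma b_lt : ∀ k, b k < b (k + 1)
  | 0 => by decide
  | 1 => by decide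
  | k + 2 => Nat.pow_lt_pow_right (by norm_num) (b_lt k)

lemma b_mono : StrictMono b := strictMono_nat_of_lt_succ b_lt

lemma le_b (k : ℕ) : k ≤ b k := b_mono.le_apply

lemma b_gap (k : ℕ) : b (k + 2) + k ≤ b (k + 3) := by
  have h1 : 2 ^ (b k + 1) ≤ 2 ^ b (k + 1) := Nat.pow_le_pow_right (by norm_num) (b_lt k)
  have h2 : b k < 2 ^ b k := Nat.lt_two_pow_self
  have h3 := le_b k
  show 2 ^ b k + k ≤ 2 ^ b (k + 1)
  rw [pow_succ] at h1
  omega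

lemma b_ratio (k : ℕ) : b (k + 4) * k ≤ b (k + 5) := by
  have h1 : 2 ^ (b (k + 2) + k) ≤ 2 ^ b (k + 3) := Nat.pow_le_pow_right (by norm_num) (b_gap k)
  have h2 : k < 2 ^ k := Nat.lt_two_pow_self
  show 2 ^ b (k + 2) * k ≤ 2 ^ b (k + 3)
  rw [pow_add] at h1
  exact le_trans (Nat.mul_le_mul_left _ h2.le) h1

lemma b_pow (k n : ℕ) (h : n ≤ k) : b (k + 6) ^ n ≤ b (k + 7) := by
  show (2 ^ b (k + 4)) ^ n ≤ 2 ^ b (k + 5)
  rw [← pow_mul]
  exact Nat.pow_le_pow_right (by norm_num) (le_trans (Nat.mul_le_mul_left _ h) (b_ratio k))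

lemma ex (x : ℕ) : ∃ k, x < b (k + 1) := ⟨x, lt_of_le_of_lt (le_b x) (b_lt x)⟩

noncomputable def h (x : ℕ) : ℕ := Nat.find (ex x)

lemma lt_h (x : ℕ) : x < b (h x + 1) := Nat.find_spec (ex x)

lemma le_h {x k : ℕ} (hx : b k ≤ x) : k ≤ h x := by
  by_contra hc
  have := b_mono.monotone (show h x + 1 ≤ k by omega)
  have := lt_h x
  omega

lemma h_le {x k : ℕ} (hx : x < b (k + 1)) : h x ≤ k := Nat.find_min' (ex x) hx

lemma b_h {x : ℕ} (hx : b 1 ≤ x) : b (h x) ≤ x := by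
  have h1 := le_h hx
  obtain ⟨k, hk⟩ : ∃ k, h x = k + 1 := ⟨h x - 1, by omega⟩
  rw [hk]
  by_contra hc
  have := h_le (not_le.1 hc)
  omega

lemma main (n m : ℕ) (hn : 2 ≤ n) (hm : b (n + 5) ≤ m) :
    (h m ≤ h (m ^ n) ∧ h (m ^ n) ≤ h m + 1) ∧ (h m + 2 ≤ h (n ^ m) ∧ h (n ^ m) ≤ h m + 3) := by
  have h1 := le_h hm
  obtain ⟨k, hk⟩ : ∃ k, h m = k + 5 := ⟨h m - 5, by omega⟩
  have hlo : b (k + 5) ≤ m := hk ▸ b_h (le_trans (b_mono.monotone (by omega)) hm)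
  have hhi : m < b (k + 6) := by have := lt_h m; rwa [hk] at this
  have hnk : n ≤ k := by omega
  rw [hk]
  refine ⟨⟨le_h (le_trans hlo (Nat.le_self_pow (by omega) _)), h_le ?_⟩, le_h ?_, h_le ?_⟩
  · exact lt_of_lt_of_le (Nat.pow_lt_pow_left hhi (by omega)) (b_pow k n hnk)
  · exact le_trans (Nat.pow_le_pow_right (by norm_num) hlo) (Nat.pow_le_pow_left hn _)
  · show n ^ m < 2 ^ b (k + 7)
    have h2 : n ^ m < (2 ^ n) ^ m := Nat.pow_lt_pow_left Nat.lt_two_pow_self (by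
      have := le_b (k + 5); omega)
    refine lt_of_lt_of_le h2 ?_
    rw [← pow_mul]
    refine Nat.pow_le_pow_right (by norm_num) (le_trans ?_ (b_ratio (k + 2)))
    rw [mul_comm]
    exact Nat.mul_le_mul hhi.le (by omega)

lemma big (p : Ultrafilter ℕ+) (hp : ∀ a, p ≠ pure a) (N : ℕ) : {n : ℕ+ | N ≤ (n : ℕ)} ∈ p := by
  have hc : (p : Filter ℕ+) ≤ cofinite :=
    p.le_cofinite_or_eq_pure.resolve_right fun ⟨a, ha⟩ => hp a ha
  refine hc ?_
  rw [mem_cofinite]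
  refine Set.Finite.of_finite_image (f := PNat.val) ?_ PNat.coe_injective.injOn
  refine (Set.finite_lt_nat N).subset ?_
  rintro _ ⟨x, hx, rfl⟩
  exact not_le.1 (show ¬ N ≤ (x : ℕ) from hx)

theorem result (p q : Ultrafilter ℕ+) (hp : ∀ a, p ≠ pure a) (hq : ∀ a, q ≠ pure a) :
    E1 p q ≠ E2 p q := by
  intro he
  obtain ⟨r, hr⟩ : ∃ r : Fin 4, {m : ℕ+ | h m % 4 = r} ∈ q := by
    obtain ⟨r, hr⟩ := Ultrafilter.eq_pure_of_finite
      (q.map fun m : ℕ+ => (⟨h m % 4, Nat.mod_lt _ (by norm_num)⟩ : Fin 4))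
    refine ⟨r, ?_⟩
    have : ({r} : Set (Fin 4)) ∈ q.map
      fun m : ℕ+ => (⟨h m % 4, Nat.mod_lt _ (by norm_num)⟩ : Fin 4) := by rw [hr]; rfl
    exact mem_of_superset this fun m hm => congrArg Fin.val hm
  let A : Set ℕ+ := {x | h x % 4 = r ∨ h x % 4 = (r + 1) % 4}
  have h2 : A ∈ E2 p q := by
    refine Filter.mem_bind'.2 (mem_of_superset (big p hp 2) fun n hn => ?_)
    refine mem_of_superset (inter_mem hr (big q hq (b (n + 5)))) fun m hm => ?_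
    have := (main n m hn hm.2).1
    have h3 : h m % 4 = r := hm.1
    show h (m ^ (n : ℕ) : ℕ+) % 4 = r ∨ h (m ^ (n : ℕ) : ℕ+) % 4 = (r + 1) % 4
    rw [PNat.pow_coe]
    omega
  have h1 : Aᶜ ∈ E1 p q := by
    refine Filter.mem_bind'.2 (mem_of_superset (big p hp 2) fun n hn => ?_)
    refine mem_of_superset (inter_mem hr (big q hq (b (n + 5)))) fun m hm => ?_
    have := (main n m hn hm.2).2
    have h3 : h m % 4 = r := hm.1
    show ¬ (h (n ^ (m : ℕ) : ℕ+) % 4 = r ∨ h (n ^ (m : ℕ) : ℕ+) % 4 = (r + 1) % 4)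
    rw [PNat.pow_coe]
    omega
  rw [he] at h1
  exact Ultrafilter.compl_mem_iff_notMem.1 h1 h2

end Pool.Agent.Results.MP_846ee0_co.NoPairs
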